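import Mathlib
import Pool.Agent.Helper952.Croft.Glue2

open MeasureTheory

namespace Pool.Agent.Results.MP_f884a2_an.BorelSet

/-- **Negative answer to Croft's question, with a Borel set.** There is a bounded Borel set `E` in the
plane with positive finite area such that for every `t₀ > 0` some `t ∈ (0, t₀)` is not the length of
any line section of `E`.  (All line sections of a Borel set are Borel.)

The line through `a` with unit direction `v` is `{a + s • v | s ∈ ℝ}`, and `s ↦ a + s • v` is an
isometry of `ℝ` onto it, so the length of the section is the Lebesgue measure of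
`{s | a + s • v ∈ E}`. -/
theorem result :
    ∃ E : Set (EuclideanSpace ℝ (Fin 2)),
      MeasurableSet E ∧ Bornology.IsBounded E ∧ 0 < volume E ∧ volume E < ⊤ ∧
      ∀ t₀ : ℝ, 0 < t₀ → ∃ t : ℝ, 0 < t ∧ t < t₀ ∧
        ∀ a v : EuclideanSpace ℝ (Fin 2), ‖v‖ = 1 →
          volume {s : ℝ | a + s • v ∈ E} ≠ ENNReal.ofReal t := by
  obtain ⟨E, hm, hb, h0, h1, t, htpos, htend, hE⟩ := Croft.F2.final_borel' Croft.kill2Stmt
  refine ⟨E, hm, hb, h0, h1, ?_⟩
  intro t₀ ht₀
  obtain ⟨k, hk⟩ := (htend.eventually (gt_mem_nhds ht₀)).exists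
  exact ⟨t k, htpos k, hk, hE k⟩

end Pool.Agent.Results.MP_f884a2_an.BorelSet
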