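import Mathlib
import Pool.Agent.Helper952.Croft.Glue

open MeasureTheory

namespace Pool.Agent.Results.MP_f884a2_an.SmallSections

/-- **Negative answer to Croft's question.** There is a bounded Lebesgue measurable plane set `E`
of positive finite area such that no positive rational number is the length of a line section
of `E`.  In particular, for every `t₀ > 0` some `t ∈ (0, t₀)` is not attained.

`NullMeasurableSet _ volume` is Lebesgue measurability.  The line through `a` with unit direction
`v` is `{a + s • v | s ∈ ℝ}`, and `s ↦ a + s • v` is an isometry onto it, so the section is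
Lebesgue measurable of length `t` exactly when `{s | a + s • v ∈ E}` is. -/
theorem result :
    ∃ E : Set (EuclideanSpace ℝ (Fin 2)),
      NullMeasurableSet E volume ∧ Bornology.IsBounded E ∧ 0 < volume E ∧ volume E < ⊤ ∧
      (∀ q : ℚ, 0 < q → ∀ a v : EuclideanSpace ℝ (Fin 2), ‖v‖ = 1 →
        ¬ (NullMeasurableSet {s : ℝ | a + s • v ∈ E} volume ∧
          volume {s : ℝ | a + s • v ∈ E} = ENNReal.ofReal (q : ℝ))) ∧
      (∀ t₀ : ℝ, 0 < t₀ → ∃ t : ℝ, 0 < t ∧ t < t₀ ∧
        ∀ a v : EuclideanSpace ℝ (Fin 2), ‖v‖ = 1 →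
          ¬ (NullMeasurableSet {s : ℝ | a + s • v ∈ E} volume ∧
            volume {s : ℝ | a + s • v ∈ E} = ENNReal.ofReal t)) := by
  obtain ⟨E, hb, hm, h0, ht, hE⟩ := Croft.FF.final_of_kill Croft.killStmt
  refine ⟨E, hm, hb, h0, ht, ?_, ?_⟩
  · intro q hq a v hv
    have := hE q (by exact_mod_cast hq) a v hv
    exact_mod_cast this
  · intro t₀ ht₀
    obtain ⟨q, hq0, hq1⟩ := exists_rat_btwn ht₀
    refine ⟨q, hq0, hq1, ?_⟩
    intro a v hv
    exact hE q (by exact_mod_cast hq0) a v hv

end Pool.Agent.Results.MP_f884a2_an.SmallSections
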